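import Pool.Agent.W394.BQN.Stm

/-!
# Elementary operations over local rings
-/

set_option autoImplicit false

open Polynomial

namespace Pool.Agent.W53.BQN

open Pool.Agent.W394.BQN BQ

theorem upper_mem {R : Type} [CommRing R] (c : R) : !![1, c; 0, 1] ∈ E2 R :=
  Submonoid.subset_closure (Or.inl ⟨c, rfl⟩)

theorem lower_mem {R : Type} [CommRing R] (c : R) : !![1, 0; c, 1] ∈ E2 R :=
  Submonoid.subset_closure (Or.inr ⟨c, rfl⟩)

theorem t_LOC : S_LOC := by
  intro R _ _ a b hab
  obtain ⟨x, y, hxy⟩ := hab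
  rcases IsLocalRing.isUnit_or_isUnit_of_add_one hxy with h | h
  · obtain ⟨u, hu⟩ := isUnit_of_mul_isUnit_right h
    have hu1 : a * (↑u⁻¹ : R) = 1 := by rw [← hu]; exact u.mul_inv
    refine ⟨!![1, (↑u⁻¹ : R) * (1 - b); 0, 1] * !![1, 0; 1 - a, 1] * !![1, -1; 0, 1],
      mul_mem (mul_mem (upper_mem _) (lower_mem _)) (upper_mem _), ?_, ?_⟩
    · simp only [Matrix.mul_apply, Fin.sum_univ_two, Matrix.of_apply, Matrix.cons_val', Matrix.cons_val_zero,
        Matrix.cons_val_one, Matrix.cons_val_fin_one]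
      linear_combination (1 - b) * (1 - a) * hu1
    · simp only [Matrix.mul_apply, Fin.sum_univ_two, Matrix.of_apply, Matrix.cons_val', Matrix.cons_val_zero,
        Matrix.cons_val_one, Matrix.cons_val_fin_one]
      linear_combination (-(1 - b) * (1 - a) + (1 - b)) * hu1
  · obtain ⟨u, hu⟩ := isUnit_of_mul_isUnit_right h
    have hu1 : b * (↑u⁻¹ : R) = 1 := by rw [← hu]; exact u.mul_inv
    refine ⟨!![1, 0; (↑u⁻¹ : R) * (1 - a), 1] * !![1, -b; 0, 1],
      mul_mem (lower_mem _) (upper_mem _), ?_, ?_⟩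
    · simp only [Matrix.mul_apply, Fin.sum_univ_two, Matrix.of_apply, Matrix.cons_val', Matrix.cons_val_zero,
        Matrix.cons_val_one, Matrix.cons_val_fin_one]
      linear_combination (1 - a) * hu1
    · simp only [Matrix.mul_apply, Fin.sum_univ_two, Matrix.of_apply, Matrix.cons_val', Matrix.cons_val_zero,
        Matrix.cons_val_one, Matrix.cons_val_fin_one]
      linear_combination (-b * (1 - a)) * hu1

end Pool.Agent.W53.BQN
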