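import Pool.Agent.W394.BQN.Stm2

/-!
# Elementary operations over semilocal rings
-/

set_option autoImplicit false

open Polynomial

namespace Pool.Agent.W53.BQN.SEM

open Pool.Agent.W394.BQN BQ

theorem upper_mem {R : Type} [CommRing R] (c : R) : !![1, c; 0, 1] ∈ E2 R :=
  Submonoid.subset_closure (Or.inl ⟨c, rfl⟩)

theorem lower_mem {R : Type} [CommRing R] (c : R) : !![1, 0; c, 1] ∈ E2 R :=
  Submonoid.subset_closure (Or.inr ⟨c, rfl⟩)

/-- in a semilocal ring a unimodular row has a unit in the orbit -/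
theorem exists_unit (R : Type) [CommRing R] [Finite (MaximalSpectrum R)] (a b : R)
    (hab : IsCoprime a b) : ∃ t : R, IsUnit (a + t * b) := by
  classical
  have hI : Pairwise (Function.onFun IsCoprime (fun m : MaximalSpectrum R => m.asIdeal)) := by
    intro m m' hmm
    have hne : m.asIdeal ≠ m'.asIdeal := fun h => hmm (MaximalSpectrum.ext h)
    have h1 := m.isMaximal
    have h2 := m'.isMaximal
    exact Ideal.isCoprime_of_isMaximal hne
  obtain ⟨t, ht⟩ := Ideal.exists_forall_sub_mem_ideal hI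
    (fun m : MaximalSpectrum R => if a ∈ m.asIdeal then (1 : R) else 0)
  refine ⟨t, ?_⟩
  by_contra hcon
  obtain ⟨I, hImax, hwI⟩ := exists_max_ideal_of_mem_nonunits (show a + t * b ∈ nonunits R from hcon)
  have h1 := ht ⟨I, hImax⟩
  simp only at h1
  obtain ⟨x, y, hxy⟩ := hab
  by_cases ha : a ∈ I
  · rw [if_pos ha] at h1
    have h2 : t * b ∈ I := by
      have := I.sub_mem hwI ha
      rwa [add_sub_cancel_left] at this
    have h3 : b ∈ I := by
      have h4 := I.sub_mem h2 (I.mul_mem_right b h1)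
      have h5 : t * b - (t - 1) * b = b := by ring
      rwa [h5] at h4
    apply hImax.ne_top
    rw [Ideal.eq_top_iff_one, ← hxy]
    exact I.add_mem (I.mul_mem_left x ha) (I.mul_mem_left y h3)
  · rw [if_neg ha, sub_zero] at h1
    apply ha
    have h2 := I.sub_mem hwI (I.mul_mem_right b h1)
    rwa [add_sub_cancel_right] at h2

/-- semilocal rings (`S_SEM`) -/
theorem t_SEM : S_SEM := by
  intro R _ _ a b hab
  obtain ⟨t, u, hu⟩ := exists_unit R a b hab
  have hu1 : (a + t * b) * (↑u⁻¹ : R) = 1 := by rw [← hu]; exact u.mul_inv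
  refine ⟨!![1, 0; t, 1] * !![1, (↑u⁻¹ : R) * (1 - b); 0, 1] *
    !![1, 0; 1 - (a + t * b), 1] * !![1, -1; 0, 1],
    mul_mem (mul_mem (mul_mem (lower_mem _) (upper_mem _)) (lower_mem _)) (upper_mem _), ?_, ?_⟩
  · simp only [Matrix.mul_apply, Fin.sum_univ_two, Matrix.of_apply, Matrix.cons_val', Matrix.cons_val_zero,
      Matrix.cons_val_one, Matrix.cons_val_fin_one]
    linear_combination (1 - b) * (1 - (a + t * b)) * hu1
  · simp only [Matrix.mul_apply, Fin.sum_univ_two, Matrix.of_apply, Matrix.cons_val', Matrix.cons_val_zero,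
      Matrix.cons_val_one, Matrix.cons_val_fin_one]
    linear_combination (1 - b) * (a + t * b) * hu1

end Pool.Agent.W53.BQN.SEM
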